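import Mathlib
import Pool.Agent.Hp6.KS.Final

set_option autoImplicit false

/-!
# Every aperiodic non-smooth countable Borel equivalence relation has a minimal `K_σ` realization

Idea. By the Glimm-Effros dichotomy and absorption, `E` is Borel isomorphic to the disjoint union of
`E`, eventual equality on `ℕ → ℕ` and one further infinite class. Split the space of `E` into
countably many Borel sets `B_u`, indexed by the finite sequences `u`, such that each point can be
moved inside its class into any given `B_u` by one of finitely many Borel automorphisms, and choose a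
zero-dimensional Polish topology for which all the automorphisms are homeomorphisms and the `B_u` are
clopen; `B_u` has a compactification `Z_u` with countable remainder. The compact space consists of
the infinite sequences (regular points) and of the fibres `Z_u` over the finite sequences `u`; the
extension of `u` by a label `j` is attached to the point of `B_u` into which a point `x_j` is moved,
with `x_j` independent of `u`. Then limits of pairs of infinite sequences with the same tail are
pairs with the same tail, or pairs of equivalent points of `E`, or pairs of points of the remainders,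
and the remainders form one class. Every open set contains some `Z_u`, and all classes meet it.
-/

namespace Pool.Agent.Results.MP_daea50_lc.MinimalKSigma

open Set

universe u

/-- Every aperiodic countable Borel equivalence relation `E` on a standard Borel space which has no
Borel transversal is Borel isomorphic to an equivalence relation on the Cantor space `ℕ → Bool` which
is a countable union of compact sets and all of whose classes are dense. -/
theorem result {X : Type u} [MeasurableSpace X] [StandardBorelSpace X]
    (E : X → X → Prop) (hE : Equivalence E) (hm : MeasurableSet {p : X × X | E p.1 p.2})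
    (hc : ∀ x, {y | E x y}.Countable) (ha : ∀ x, {y | E x y}.Infinite)
    (hns : ¬ ∃ T : Set X, MeasurableSet T ∧ ∀ x, ∃! y, y ∈ T ∧ E x y) :
    ∃ f : X ≃ᵐ (ℕ → Bool),
      (∃ K : ℕ → Set ((ℕ → Bool) × (ℕ → Bool)), (∀ n, IsCompact (K n)) ∧
        {p : (ℕ → Bool) × (ℕ → Bool) | E (f.symm p.1) (f.symm p.2)} = ⋃ n, K n) ∧
      ∀ y, Dense {z | E (f.symm y) (f.symm z)} := by
  classical
  have hX : ¬ Countable X := by
    intro hX
    apply hns
    let S : Setoid X := ⟨E, hE⟩
    refine ⟨range (fun q : Quotient S => q.out), (Set.countable_range _).measurableSet, fun x => ?_⟩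
    refine ⟨(Quotient.mk S x).out, ⟨⟨_, rfl⟩, ?_⟩, ?_⟩
    · exact hE.symm (Quotient.exact (Quotient.out_eq (Quotient.mk S x)))
    · rintro y ⟨⟨q, rfl⟩, hy⟩
      have h1 : Quotient.mk S x = q := by
        rw [← Quotient.out_eq q]
        exact Quotient.sound hy
      simp only [h1]
  have hN : ¬ Countable (ℕ → Bool) := by
    intro h
    obtain ⟨f, hf⟩ := exists_surjective_nat (ℕ → Bool)
    obtain ⟨n, hn⟩ := hf (fun n => !(f n n))
    have := congrFun hn n
    simp at this
  let e : X ≃ᵐ (ℕ → Bool) := PolishSpace.measurableEquivOfNotCountable hX hN
  obtain ⟨f, ⟨K, hK1, hK2⟩, hd⟩ := Pool.Agent.Hp6.KS.final0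
    (fun a b => E (e.symm a) (e.symm b))
    ⟨fun _ => hE.refl _, fun h => hE.symm h, fun h h' => hE.trans h h'⟩
    (((e.symm.measurable.comp measurable_fst).prodMk (e.symm.measurable.comp measurable_snd)) hm)
    (fun a => by
      refine ((hc (e.symm a)).image e).mono ?_
      intro b hb
      exact ⟨e.symm b, hb, e.apply_symm_apply b⟩)
    (fun a hfin => ha (e.symm a) (by
      refine (hfin.image e.symm).subset ?_
      intro y hy
      refine ⟨e y, ?_, e.symm_apply_apply y⟩
      show E (e.symm a) (e.symm (e y))
      rw [e.symm_apply_apply]
      exact hy))
    (by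
      rintro ⟨T, hT, hT'⟩
      refine hns ⟨e ⁻¹' T, e.measurable hT, fun x => ?_⟩
      obtain ⟨y, ⟨hy1, hy2⟩, hy3⟩ := hT' (e x)
      rw [e.symm_apply_apply] at hy2
      refine ⟨e.symm y, ⟨?_, hy2⟩, ?_⟩
      · show e (e.symm y) ∈ T
        rw [e.apply_symm_apply]
        exact hy1
      · rintro z ⟨hz1, hz2⟩
        have h1 := hy3 (e z) ⟨hz1, by
          show E (e.symm (e x)) (e.symm (e z))
          rw [e.symm_apply_apply, e.symm_apply_apply]
          exact hz2⟩
        rw [← h1, e.symm_apply_apply])
  exact ⟨e.trans f, ⟨K, hK1, hK2⟩, hd⟩

end Pool.Agent.Results.MP_daea50_lc.MinimalKSigma
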